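import Pool.Agent.Helper83.Final2
import Pool.Agent.DHJ.Main

set_option autoImplicit false
open MeasureTheory Set

namespace Pool.Agent.Results.MP_106462_co.LebesgueSkeleton

/-- The Borel case. -/
theorem borel_case :
    ∀ k d : ℕ, 1 ≤ k → k ≤ d → ∀ ε : ℝ, 0 < ε → ∃ δ : ℝ, 0 < δ ∧
      ∀ S : Set (EuclideanSpace ℝ (Fin d)), MeasurableSet S → 0 < volume S → volume S < ⊤ →
        ε ≤ (volume {x : Fin (k + 1) → EuclideanSpace ℝ (Fin d) |
                (∀ i, x i ∈ S) ∧ convexHull ℝ (Set.range x) ⊆ S}).toReal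
              / (volume S).toReal ^ (k + 1) →
        ∃ X : Fin (d + 1) → EuclideanSpace ℝ (Fin d),
          AffineIndependent ℝ X ∧
          δ * (volume S).toReal ≤ (volume (convexHull ℝ (Set.range X))).toReal ∧
          ∀ s : Finset (Fin (d + 1)), s.card = k + 1 →
            convexHull ℝ (X '' (s : Set (Fin (d + 1)))) ⊆ S := by
  exact Pool.Agent.Helper83.main_of_DHJ
    (fun α _ _ _ hδ => Pool.Agent.DHJ.density_hales_jewett α hδ)

/-- The union of the convex hulls of the tuples in `K`. -/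
lemma union_hull_compact {k d : ℕ} {K : Set (Fin (k + 1) → EuclideanSpace ℝ (Fin d))}
    (hK : IsCompact K) :
    IsCompact (⋃ x ∈ K, convexHull ℝ (Set.range x)) := by
  have h1 : IsCompact (K ×ˢ (stdSimplex ℝ (Fin (k + 1)))) :=
    hK.prod (isCompact_stdSimplex ℝ (Fin (k + 1)))
  have h2 : Continuous (fun p : (Fin (k + 1) → EuclideanSpace ℝ (Fin d)) × (Fin (k + 1) → ℝ) =>
      ∑ i, p.2 i • p.1 i) := by
    fun_prop
  have h3 : (⋃ x ∈ K, convexHull ℝ (Set.range x))
      = (fun p : (Fin (k + 1) → EuclideanSpace ℝ (Fin d)) × (Fin (k + 1) → ℝ) =>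
          ∑ i, p.2 i • p.1 i) '' (K ×ˢ (stdSimplex ℝ (Fin (k + 1)))) := by
    ext y
    simp only [mem_iUnion, mem_image, mem_prod, exists_prop, Prod.exists]
    constructor
    · rintro ⟨x, hx, hy⟩
      let L : (Fin (k + 1) → ℝ) →ₗ[ℝ] EuclideanSpace ℝ (Fin d) :=
        { toFun := fun w => ∑ i, w i • x i
          map_add' := fun v w => by simp [add_smul, Finset.sum_add_distrib]
          map_smul' := fun c w => by simp [mul_smul, Finset.smul_sum] }
      have hsub : convexHull ℝ (Set.range x) ⊆ L '' (stdSimplex ℝ (Fin (k + 1))) := by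
        apply convexHull_min
        · rintro _ ⟨i, rfl⟩
          refine ⟨Pi.single i 1, single_mem_stdSimplex ℝ i, ?_⟩
          change ∑ j, (Pi.single i (1 : ℝ) : Fin (k + 1) → ℝ) j • x j = x i
          rw [Finset.sum_eq_single i]
          · simp
          · intro j _ hj
            simp [hj]
          · intro h
            exact absurd (Finset.mem_univ i) h
        · exact (convex_stdSimplex ℝ (Fin (k + 1))).linear_image L
      obtain ⟨w, hw, hwy⟩ := hsub hy
      exact ⟨x, w, ⟨hx, hw⟩, hwy⟩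
    · rintro ⟨x, w, ⟨hx, hw⟩, rfl⟩
      refine ⟨x, hx, ?_⟩
      exact (convex_convexHull ℝ _).sum_mem (fun i _ => hw.1 i) hw.2
        (fun i _ => subset_convexHull ℝ _ (mem_range_self i))
  rw [h3]
  exact h1.image h2

theorem result :
    ∀ k d : ℕ, 1 ≤ k → k ≤ d → ∀ ε : ℝ, 0 < ε → ∃ δ : ℝ, 0 < δ ∧
      ∀ S : Set (EuclideanSpace ℝ (Fin d)), NullMeasurableSet S volume →
        0 < volume S → volume S < ⊤ →
        NullMeasurableSet {x : Fin (k + 1) → EuclideanSpace ℝ (Fin d) |
                (∀ i, x i ∈ S) ∧ convexHull ℝ (Set.range x) ⊆ S} volume →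
        ε ≤ (volume {x : Fin (k + 1) → EuclideanSpace ℝ (Fin d) |
                (∀ i, x i ∈ S) ∧ convexHull ℝ (Set.range x) ⊆ S}).toReal
              / (volume S).toReal ^ (k + 1) →
        ∃ X : Fin (d + 1) → EuclideanSpace ℝ (Fin d),
          AffineIndependent ℝ X ∧
          δ * (volume S).toReal ≤ (volume (convexHull ℝ (Set.range X))).toReal ∧
          ∀ s : Finset (Fin (d + 1)), s.card = k + 1 →
            convexHull ℝ (X '' (s : Set (Fin (d + 1)))) ⊆ S := by
  intro k d hk hkd ε hε
  obtain ⟨δ, hδ, hmain⟩ := borel_case k d hk hkd (ε / 2) (by linarith)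
  refine ⟨δ * (ε / 2), by positivity, ?_⟩
  intro S hS hS0 hSfin hC hb
  set C : Set (Fin (k + 1) → EuclideanSpace ℝ (Fin d)) :=
    {x | (∀ i, x i ∈ S) ∧ convexHull ℝ (Set.range x) ⊆ S} with hCdef
  have hV0 : 0 < (volume S).toReal := ENNReal.toReal_pos hS0.ne' hSfin.ne
  have hprod : ∀ T : Set (EuclideanSpace ℝ (Fin d)),
      volume (Set.univ.pi (fun _ : Fin (k + 1) => T)) = volume T ^ (k + 1) := by
    intro T
    rw [volume_pi_pi]
    simp
  have hCsub : C ⊆ Set.univ.pi (fun _ : Fin (k + 1) => S) := by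
    intro x hx i _
    exact hx.1 i
  have hCfin : volume C < ⊤ := by
    refine (measure_mono hCsub).trans_lt ?_
    rw [hprod]
    exact ENNReal.pow_lt_top hSfin
  have hCpos : 0 < (volume C).toReal := by
    have h1 : 0 < (volume C).toReal / (volume S).toReal ^ (k + 1) := lt_of_lt_of_le hε hb
    exact (div_pos_iff_of_pos_right (by positivity)).1 h1
  -- a compact subset of at least half the measure
  obtain ⟨K, hKC, hKc, hKv⟩ : ∃ K ⊆ C, IsCompact K ∧ (volume C).toReal / 2 ≤ (volume K).toReal := by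
    obtain ⟨C', hC'sub, hC'meas, hC'ae⟩ := hC.exists_measurable_subset_ae_eq
    have hC'vol : volume C' = volume C := measure_congr hC'ae
    have hne : volume C' ≠ ⊤ := by rw [hC'vol]; exact hCfin.ne
    have hlt : volume C' / 2 < volume C' := by
      apply ENNReal.half_lt_self _ hne
      rw [hC'vol]
      intro h0
      rw [h0] at hCpos
      simp at hCpos
    obtain ⟨K, hK1, hK2, hK3⟩ := hC'meas.exists_lt_isCompact_of_ne_top hne hlt
    refine ⟨K, hK1.trans hC'sub, hK2, ?_⟩
    have h2 : volume K ≠ ⊤ := (hK2.measure_lt_top).ne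
    have h3 := ENNReal.toReal_mono h2 hK3.le
    rw [ENNReal.toReal_div, hC'vol] at h3
    simpa using h3
  set S' : Set (EuclideanSpace ℝ (Fin d)) := ⋃ x ∈ K, convexHull ℝ (Set.range x) with hS'def
  have hS'c : IsCompact S' := union_hull_compact hKc
  have hS'sub : S' ⊆ S := by
    intro y hy
    simp only [hS'def, mem_iUnion, exists_prop] at hy
    obtain ⟨x, hx, hy⟩ := hy
    exact (hKC hx).2 hy
  have hS'fin : volume S' < ⊤ := hS'c.measure_lt_top
  set C' : Set (Fin (k + 1) → EuclideanSpace ℝ (Fin d)) :=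
    {x | (∀ i, x i ∈ S') ∧ convexHull ℝ (Set.range x) ⊆ S'} with hC'def
  have hKC' : K ⊆ C' := by
    intro x hx
    have h1 : convexHull ℝ (Set.range x) ⊆ S' := by
      intro y hy
      simp only [hS'def, mem_iUnion, exists_prop]
      exact ⟨x, hx, hy⟩
    exact ⟨fun i => h1 (subset_convexHull ℝ _ (mem_range_self i)), h1⟩
  have hC'fin : volume C' < ⊤ := by
    have h1 : C' ⊆ Set.univ.pi (fun _ : Fin (k + 1) => S') := fun x hx i _ => hx.1 i
    refine (measure_mono h1).trans_lt ?_
    rw [hprod]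
    exact ENNReal.pow_lt_top hS'fin
  have hC'v : (volume C).toReal / 2 ≤ (volume C').toReal :=
    hKv.trans (ENNReal.toReal_mono hC'fin.ne (measure_mono hKC'))
  have hC'S' : (volume C').toReal ≤ (volume S').toReal ^ (k + 1) := by
    have h1 : C' ⊆ Set.univ.pi (fun _ : Fin (k + 1) => S') := fun x hx i _ => hx.1 i
    have h2 := measure_mono (μ := volume) h1
    rw [hprod] at h2
    have h3 := ENNReal.toReal_mono (ENNReal.pow_lt_top hS'fin).ne h2
    rwa [ENNReal.toReal_pow] at h3
  have hV'le : (volume S').toReal ≤ (volume S).toReal :=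
    ENNReal.toReal_mono hSfin.ne (measure_mono hS'sub)
  have hV'0 : 0 < (volume S').toReal := by
    by_contra hcon
    have h0 : (volume S').toReal = 0 := le_antisymm (not_lt.1 hcon) ENNReal.toReal_nonneg
    rw [h0, zero_pow (by omega)] at hC'S'
    linarith
  have hb' : ε * (volume S).toReal ^ (k + 1) ≤ (volume C).toReal := by
    rwa [le_div_iff₀ (by positivity)] at hb
  have hpow : (volume S').toReal ^ (k + 1) ≤ (volume S).toReal ^ (k + 1) :=
    pow_le_pow_left₀ hV'0.le hV'le _
  have hratio : ε / 2 * (volume S).toReal ≤ (volume S').toReal := by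
    have h1 : ε / 2 * (volume S).toReal ^ (k + 1) ≤ (volume S').toReal ^ (k + 1) := by
      linarith
    have h2 : (volume S').toReal ^ (k + 1) ≤ (volume S').toReal * (volume S).toReal ^ k := by
      rw [pow_succ']
      exact mul_le_mul_of_nonneg_left (pow_le_pow_left₀ hV'0.le hV'le _) hV'0.le
    have h3 : (ε / 2 * (volume S).toReal) * (volume S).toReal ^ k
        ≤ (volume S').toReal * (volume S).toReal ^ k := by
      calc (ε / 2 * (volume S).toReal) * (volume S).toReal ^ k
          = ε / 2 * (volume S).toReal ^ (k + 1) := by ring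
        _ ≤ _ := h1.trans h2
    exact le_of_mul_le_mul_right h3 (by positivity)
  obtain ⟨X, hX1, hX2, hX3⟩ := hmain S' hS'c.measurableSet
    ((ENNReal.toReal_pos_iff.1 hV'0).1) hS'fin (by
      rw [le_div_iff₀ (by positivity)]
      calc ε / 2 * (volume S').toReal ^ (k + 1) ≤ ε / 2 * (volume S).toReal ^ (k + 1) := by
            apply mul_le_mul_of_nonneg_left hpow (by positivity)
        _ ≤ (volume C).toReal / 2 := by linarith
        _ ≤ (volume C').toReal := hC'v)
  refine ⟨X, hX1, ?_, fun s hs => (hX3 s hs).trans hS'sub⟩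
  calc δ * (ε / 2) * (volume S).toReal = δ * (ε / 2 * (volume S).toReal) := by ring
    _ ≤ δ * (volume S').toReal := mul_le_mul_of_nonneg_left hratio hδ.le
    _ ≤ _ := hX2

end Pool.Agent.Results.MP_106462_co.LebesgueSkeleton
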